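import Pool.Agent.H59.LIN.Targets

/-!
# Row ZED: the products of the basic symbols span
-/

set_option autoImplicit false

open Finset

namespace Pool.Agent.H78.LIN

open Pool.Agent.H59.LIN

section Gd

variable {d : ℕ}

/-- the set function lives in degree `n` -/
def Gd (f : SF (Fin d) ℚ) (n : ℕ) : Prop := ∀ A : Finset (Fin d), A.card ≠ n → f A = 0

theorem Gd_mul {f g : SF (Fin d) ℚ} {n m : ℕ} (hf : Gd f n) (hg : Gd g m) : Gd (f * g) (n + m) := by
  intro A hA
  rw [SF.mul_def]
  refine Finset.sum_eq_zero fun B hB => ?_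
  by_cases h1 : B.card = n
  · have h2 : (A \ B).card ≠ m := by
      intro h3
      apply hA
      rw [← h1, ← h3, add_comm]
      exact (card_sdiff_add_card_eq_card (mem_powerset.1 hB)).symm
    rw [hg _ h2, mul_zero]
  · rw [hf B h1, zero_mul]

theorem Gd_one : Gd (1 : SF (Fin d) ℚ) 0 := by
  intro A hA
  rw [SF.one_def, if_neg]
  rw [← Finset.card_eq_zero]
  exact hA

theorem Gd_pow {f : SF (Fin d) ℚ} {n : ℕ} (hf : Gd f n) (r : ℕ) : Gd (f ^ r) (r * n) := by
  induction r with
  | zero =>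
    rw [pow_zero, zero_mul]
    exact Gd_one
  | succ r ih =>
    rw [pow_succ, Nat.succ_mul]
    exact Gd_mul ih hf

theorem Gd_smul {f : SF (Fin d) ℚ} {n : ℕ} (hf : Gd f n) (c : ℚ) : Gd (c • f) n := by
  intro A hA
  rw [SF.smul_def', hf A hA, mul_zero]

theorem Gd_sub {f g : SF (Fin d) ℚ} {n : ℕ} (hf : Gd f n) (hg : Gd g n) : Gd (f - g) n := by
  intro A hA
  have h1 : (f - g) A = f A - g A := rfl
  rw [h1, hf A hA, hg A hA, sub_zero]

theorem sum_ap {ι : Type} (s : Finset ι) (f : ι → SF (Fin d) ℚ) (A : Finset (Fin d)) :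
    (∑ i ∈ s, f i) A = ∑ i ∈ s, f i A := by
  classical
  induction s using Finset.induction_on with
  | empty => rfl
  | insert a s ha ih => rw [Finset.sum_insert ha, Finset.sum_insert ha, SF.add_def, ih]

theorem Gd_sum {ι : Type} (s : Finset ι) (f : ι → SF (Fin d) ℚ) {n : ℕ}
    (hf : ∀ i ∈ s, Gd (f i) n) : Gd (∑ i ∈ s, f i) n := by
  intro A hA
  rw [sum_ap]
  exact Finset.sum_eq_zero fun i hi => hf i hi A hA

theorem Gd_eta (D : CD d) (m j : ℕ) : Gd (eta D m j) m := by
  intro A hA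
  unfold eta
  rw [if_neg hA]

theorem Gd_phi (D : CD d) (b : ℕ × ℕ) : Gd (phi D b) (mb b) := by
  unfold phi
  split_ifs with h1 h2
  · have h3 : mb b = 2 := by
      unfold mb
      rw [h1, h2]
    rw [h3]
    exact Gd_eta D 2 0
  · have h3 : mb b = 2 * b.2 + 2 := by
      unfold mb
      rw [h1, Nat.zero_add]
    rw [h3]
    refine Gd_smul (Gd_sub (Gd_eta D _ 0) (Gd_smul ?_ _)) _
    have h4 := Gd_pow (Gd_eta D 2 0) (b.2 + 1)
    have h5 : (b.2 + 1) * 2 = 2 * b.2 + 2 := by ring
    rwa [h5] at h4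
  · exact Gd_sum _ _ fun l _ => Gd_eta D _ _

theorem Gd_prod (D : CD d) (ν : Multiset (ℕ × ℕ)) : Gd ((ν.map (phi D)).prod) (wt ν) := by
  induction ν using Multiset.induction_on with
  | empty =>
    rw [Multiset.map_zero, Multiset.prod_zero]
    exact Gd_one
  | cons b ν ih =>
    have h1 : wt (b ::ₘ ν) = mb b + wt ν := by
      unfold wt
      rw [Multiset.map_cons, Multiset.sum_cons]
    rw [Multiset.map_cons, Multiset.prod_cons, h1]
    exact Gd_mul (Gd_phi D b) ih

end Gd

/-- the value of a product of the coefficients -/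
theorem prodH_eq (hPRS : T_PRS) {d : ℕ} (D : CD d) {r : ℕ} (m j : Fin r → ℕ) :
    (prodH D m j : ℚ) = (∏ p, eta D (m p) (j p)) univ := by
  rw [hPRS d ℚ r fun p => eta D (m p) (j p)]
  unfold prodH
  push_cast
  refine Finset.sum_congr rfl fun κ _ => ?_
  by_cases h : ∀ i, (fbr κ i).card = m i
  · rw [if_pos h]
    refine Finset.prod_congr rfl fun p _ => ?_
    unfold eta
    rw [if_pos (h p)]
  · rw [if_neg h]
    push Not at h
    obtain ⟨i, hi⟩ := h
    symm
    refine Finset.prod_eq_zero (Finset.mem_univ i) ?_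
    unfold eta
    rw [if_neg hi]

theorem pf_ZED (hPRS : Pool.Agent.H59.LIN.T_PRS) (hETA : Pool.Agent.H59.LIN.T_ETA) :
    Pool.Agent.H59.LIN.T_ZED := by
  intro d c hc r m j
  choose P hP using hETA
  let Q : MvPolynomial (ℕ × ℕ) ℚ := ∏ p, P (m p) (j p)
  have h1 : ∀ D : CD d, (prodH D m j : ℚ) = (MvPolynomial.aeval (phi D) Q) univ := by
    intro D
    rw [prodH_eq hPRS, map_prod]
    have h0 : ∀ p, H59.LIN.eta D (m p) (j p) = MvPolynomial.aeval (phi D) (P (m p) (j p)) :=
      fun p => hP _ _ d D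
    simp only [h0]
  have h2 : ∀ D : CD d, (MvPolynomial.aeval (phi D) Q) univ =
      ∑ ν ∈ Q.support, Q.coeff ν * ((Finsupp.toMultiset ν).map (phi D)).prod univ := by
    intro D
    rw [MvPolynomial.aeval_def, MvPolynomial.eval₂_eq, sum_ap]
    refine Finset.sum_congr rfl fun ν _ => ?_
    rw [← Algebra.smul_def, SF.smul_def', Finset.prod_multiset_map_count,
      Finsupp.toFinset_toMultiset]
    simp only [Finsupp.count_toMultiset]
  simp only [h1, h2, Finset.mul_sum]
  rw [Finset.sum_comm]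
  refine Finset.sum_eq_zero fun ν _ => ?_
  have h3 : ∀ D : CD d, c D * (Q.coeff ν * ((Finsupp.toMultiset ν).map (phi D)).prod univ) =
      Q.coeff ν * (c D * ((Finsupp.toMultiset ν).map (phi D)).prod univ) := fun D => by ring
  simp only [h3]
  rw [← Finset.mul_sum]
  set μ := Finsupp.toMultiset ν
  by_cases hμ : wt μ = d
  · have h4 : ∀ D : CD d, (μ.map (phi D)).prod univ =
        (∏ b ∈ μ.toFinset, ((μ.count b).factorial : ℚ)) * Phi D μ := by
      intro D
      unfold Phi
      rw [← mul_assoc, ← Finset.prod_mul_distrib]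
      rw [Finset.prod_eq_one, one_mul]
      intro b _
      exact mul_inv_cancel₀ (Nat.cast_ne_zero.2 (Nat.factorial_ne_zero _))
    have h5 : ∑ D, c D * (μ.map (phi D)).prod univ =
        (∏ b ∈ μ.toFinset, ((μ.count b).factorial : ℚ)) * ∑ D, c D * Phi D μ := by
      rw [Finset.mul_sum]
      refine Finset.sum_congr rfl fun D _ => ?_
      rw [h4]
      ring
    rw [h5, hc μ hμ, mul_zero, mul_zero]
  · have h4 : ∀ D : CD d, (μ.map (phi D)).prod univ = 0 := by
      intro D
      apply Gd_prod D μ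
      rw [Finset.card_univ, Fintype.card_fin]
      exact fun h => hμ h.symm
    simp only [h4, mul_zero, Finset.sum_const_zero]

end Pool.Agent.H78.LIN
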